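import Pool.Agent.W8.LS.Stm

/-!
Project LS (helper8): all transitions between the parametrisations are locally smooth symplectic.
-/

open scoped Topology ContDiff
open Complex (I)
open Pool.Agent.W8.LS
open Filter

namespace Pool.Agent.W566.LS

theorem AllTrans_proof : AllTrans := by
  intro hF hRR hRA hRB hAA hBB hAB hSAB _ i j x y hx hy hxy
  have hRR := hRR hF
  have hRA := hRA hF
  have hRB := hRB hF
  have hAA := hAA hF
  have hBB := hBB hF
  have hAB := hAB hF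
  have hSAB := hSAB hF
  obtain ⟨hre, -, hsr, hpt, -, -, -, -, -, -, -, -, -, hsymm, htrans⟩ := hF
  -- underlying points
  have hup : ∀ (i : Idx) (x : V), x ∈ dom i → ∃ (P : V) (d : Option ℂ), ch i x = pt P d ∧
      ((¬ sing P ∧ ∀ P', ¬ sing P' → chR P' = ch i x → LT chR (ch i) P' x) ∨
       (sing P ∧ ((∃ k l m r s c, i = Idx.A k l m r s c ∧ x.2.2.1 = 0) ∨
          (∃ k l m r s c, i = Idx.B k l m r s c ∧ x.2.2.2 = 0)))) := by
    intro i x hx
    match i with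
    | Idx.reg O h =>
      exact ⟨x, some 0, rfl, Or.inl ⟨h.2.1 x hx, fun P' hP' he => hRR P' x hP' he⟩⟩
    | Idx.A k l m r s c =>
      refine ⟨site k l m r (x.1, x.2.1, Pool.Agent.W8.LS.sq x.2.2.1, x.2.2.2 * Pool.Agent.W8.LS.sq x.2.2.1), some x.2.2.2, rfl, ?_⟩
      have h1 := (hSAB s c k l m r x).1 hx
      by_cases h0 : x.2.2.1 = 0
      · exact Or.inr ⟨h1.mpr h0, Or.inl ⟨k, l, m, r, s, c, rfl, h0⟩⟩
      · exact Or.inl ⟨fun h => h0 (h1.mp h), fun P' hP' he => hRA P' x k l m r hP' h0 he⟩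
    | Idx.B k l m r s c =>
      refine ⟨site k l m r (x.1, x.2.1, x.2.2.1 * Pool.Agent.W8.LS.sq x.2.2.2, Pool.Agent.W8.LS.sq x.2.2.2), _, rfl, ?_⟩
      have h1 := (hSAB s c k l m r x).2 hx
      by_cases h0 : x.2.2.2 = 0
      · exact Or.inr ⟨h1.mpr h0, Or.inr ⟨k, l, m, r, s, c, rfl, h0⟩⟩
      · exact Or.inl ⟨fun h => h0 (h1.mp h), fun P' hP' he => hRB P' x k l m r hP' h0 he⟩
  obtain ⟨P, d, hP, hcP⟩ := hup i x hx
  obtain ⟨Q, d', hQ, hcQ⟩ := hup j y hy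
  have hrel : rel P Q ∧ (sing P → d = d') := by
    rw [← hpt, ← hP, ← hQ]
    exact hxy
  have hs : sing P ↔ sing Q := hsr P Q hrel.1
  rcases hcP with ⟨hnP, h1⟩ | ⟨hsP, h1⟩
  · rcases hcQ with ⟨hnQ, h2⟩ | ⟨hsQ, h2⟩
    · have e1 : chR P = ch i x := by
        rw [hP]
        exact (hpt P P (some 0) d).mpr ⟨hre.refl P, fun h => absurd h hnP⟩
      have e2 : chR P = ch j y := e1.trans hxy
      exact htrans _ _ _ _ _ _ (hsymm _ _ _ _ (h1 P hnP e1)) (h2 P hnP e2)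
    · exact absurd (hs.mpr hsQ) hnP
  · rcases hcQ with ⟨hnQ, h2⟩ | ⟨hsQ, h2⟩
    · exact absurd (hs.mp hsP) hnQ
    · obtain ⟨x1, x2, x3, x4⟩ := x
      obtain ⟨y1, y2, y3, y4⟩ := y
      rcases h1 with ⟨k, l, m, r, s, c, rfl, h0⟩ | ⟨k, l, m, r, s, c, rfl, h0⟩
      · rcases h2 with ⟨k', l', m', r', s', c', rfl, h0'⟩ | ⟨k', l', m', r', s', c', rfl, h0'⟩
        · simp only at h0 h0'
          subst h0; subst h0'
          exact hAA _ _ _ _ _ _ _ _ _ _ _ _ _ _ hxy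
        · simp only at h0 h0'
          subst h0; subst h0'
          exact hAB _ _ _ _ _ _ _ _ _ _ _ _ _ _ hxy
      · rcases h2 with ⟨k', l', m', r', s', c', rfl, h0'⟩ | ⟨k', l', m', r', s', c', rfl, h0'⟩
        · simp only at h0 h0'
          subst h0; subst h0'
          exact hsymm _ _ _ _ (hAB _ _ _ _ _ _ _ _ _ _ _ _ _ _ hxy.symm)
        · simp only at h0 h0'
          subst h0; subst h0'
          exact hBB _ _ _ _ _ _ _ _ _ _ _ _ _ _ hxy

end Pool.Agent.W566.LS
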