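import Pool.Agent.W8.LS.Stm

/-!
Project LS (helper8): inequivalent points have inequivalent neighbourhoods.
-/

open scoped Topology ContDiff
open Complex (I)
open Pool.Agent.W8.LS
open Filter

namespace Pool.Agent.W566.LS

/-- an integer valued function which converges is eventually constant -/
theorem ev_const {α : Type*} (F : Filter α) [F.NeBot] (f : α → ℤ) (c : ℝ)
    (h : Tendsto (fun x => (f x : ℝ)) F (𝓝 c)) : ∃ z : ℤ, ∀ᶠ x in F, f x = z := by
  have hc : c ∈ Set.range ((↑) : ℤ → ℝ) :=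
    Int.isClosedEmbedding_coe_real.isClosed_range.mem_of_tendsto h
      (Eventually.of_forall fun x => ⟨f x, rfl⟩)
  obtain ⟨z, rfl⟩ := hc
  refine ⟨z, ?_⟩
  have h2 : Tendsto f F (𝓝 z) := by
    rw [Int.isClosedEmbedding_coe_real.isEmbedding.tendsto_nhds_iff]
    exact h
  have h3 : ∀ᶠ x in F, f x ∈ ({z} : Set ℤ) := h2 (by simp [nhds_discrete])
  exact h3.mono fun x hx => by simpa using hx

theorem cont_act (e k l a n m r : ℤ) : Continuous (act e k l a n m r) := by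
  unfold act
  fun_prop

theorem rel_of_frequently (P Q : V) (h : ∃ᶠ p : V × V in 𝓝 (P, Q), rel p.1 p.2) : rel P Q := by
  classical
  set F : Filter (V × V) := 𝓝 (P, Q) ⊓ 𝓟 {p | rel p.1 p.2} with hF
  have hne : F.NeBot := by
    rw [hF]
    exact frequently_mem_iff_neBot.mp h
  have hU1 : (Ultrafilter.of F : Filter (V × V)) ≤ 𝓝 (P, Q) :=
    (Ultrafilter.of_le F).trans inf_le_left
  have hU2 : ∀ᶠ p in (Ultrafilter.of F : Filter (V × V)), rel p.1 p.2 :=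
    (Ultrafilter.of_le F) (by
      rw [hF]
      exact mem_inf_of_right (mem_principal_self _))
  set U : Ultrafilter (V × V) := Ultrafilter.of F
  -- choose parameters
  have hch : ∀ p : V × V, ∃ e k l a n m r : ℤ, (rel p.1 p.2 →
      (e = 1 ∨ e = -1) ∧ p.2 = act e k l a n m r p.1) := by
    intro p
    by_cases hp : rel p.1 p.2
    · obtain ⟨e, k, l, a, n, m, r, h1, h2⟩ := hp
      exact ⟨e, k, l, a, n, m, r, fun _ => ⟨h1, h2⟩⟩
    · exact ⟨0, 0, 0, 0, 0, 0, 0, fun h' => absurd h' hp⟩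
  choose e k l a n m r hpar using hch
  have hev : ∀ᶠ p in (U : Filter (V × V)), (e p = 1 ∨ e p = -1) ∧
      p.2 = act (e p) (k p) (l p) (a p) (n p) (m p) (r p) p.1 := hU2.mono fun p hp => hpar p hp
  have hid : Tendsto (fun p : V × V => p) (U : Filter (V × V)) (𝓝 (P, Q)) := hU1
  -- e eventually constant
  have he : ∃ e0 : ℤ, (e0 = 1 ∨ e0 = -1) ∧ ∀ᶠ p in (U : Filter (V × V)), e p = e0 := by
    have h1 : ∀ᶠ p in (U : Filter (V × V)), (e p = 1 ∨ e p = -1) := hev.mono fun p hp => hp.1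
    rcases (Ultrafilter.eventually_or.mp h1) with h1 | h1
    · exact ⟨1, Or.inl rfl, h1⟩
    · exact ⟨-1, Or.inr rfl, h1⟩
  obtain ⟨e0, he0, hee⟩ := he
  have hesq : ((e0 : ℝ)) * e0 = 1 := by
    rcases he0 with rfl | rfl <;> norm_num
  -- coordinates
  have hQ1 : ∀ᶠ p in (U : Filter (V × V)),
      p.2.1 = p.1.1 - 2 * k p * p.1.2.2.1.im + a p ∧
      p.2.2.1 = p.1.2.1 + n p ∧
      (k p : ℝ) = e0 * p.2.2.2.1.re - p.1.2.2.1.re ∧
      (l p : ℝ) = e0 * p.2.2.2.1.im - p.1.2.2.1.im ∧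
      (m p : ℝ) = e0 * p.2.2.2.2.re - p.1.2.2.2.re ∧
      (r p : ℝ) = (p.1.2.2.2.im - e0 * p.2.2.2.2.im - 2 * k p * p.1.2.1 - √2 * m p) / 2 := by
    filter_upwards [hev, hee] with p hp hpe
    obtain ⟨-, h2⟩ := hp
    rw [hpe] at h2
    have g1 : p.2.1 = p.1.1 - 2 * k p * p.1.2.2.1.im + a p := by
      conv_lhs => rw [h2]
      simp [act]
    have g2 : p.2.2.1 = p.1.2.1 + n p := by
      conv_lhs => rw [h2]
      simp [act]
    have g3 : p.2.2.2.1 = (e0 : ℂ) * (p.1.2.2.1 + k p + l p * I) := by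
      conv_lhs => rw [h2]
      simp [act]
    have g4 : p.2.2.2.2 = (e0 : ℂ) * (p.1.2.2.2 + m p -
        ((2 * k p * p.1.2.1 + √2 * m p + 2 * r p : ℝ) : ℂ) * I) := by
      conv_lhs => rw [h2]
      simp [act]
    have g3r : p.2.2.2.1.re = e0 * (p.1.2.2.1.re + k p) := by
      rw [g3]
      simp
    have g3i : p.2.2.2.1.im = e0 * (p.1.2.2.1.im + l p) := by
      rw [g3]
      simp
    have g4r : p.2.2.2.2.re = e0 * (p.1.2.2.2.re + m p) := by
      rw [g4]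
      simp [-Complex.ofReal_add, -Complex.ofReal_mul]
    have g4i : p.2.2.2.2.im = e0 * (p.1.2.2.2.im - (2 * k p * p.1.2.1 + √2 * m p + 2 * r p)) := by
      rw [g4]
      simp [-Complex.ofReal_add, -Complex.ofReal_mul]
    refine ⟨g1, g2, ?_, ?_, ?_, ?_⟩
    · rw [g3r, ← mul_assoc, hesq]; ring
    · rw [g3i, ← mul_assoc, hesq]; ring
    · rw [g4r, ← mul_assoc, hesq]; ring
    · rw [g4i, ← mul_assoc, hesq]; ring
  have tk : ∃ z : ℤ, ∀ᶠ p in (U : Filter (V × V)), k p = z := by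
    have h0 : Tendsto (fun p : V × V => (e0 : ℝ) * p.2.2.2.1.re - p.1.2.2.1.re) (U : Filter (V × V))
        (𝓝 ((e0 : ℝ) * (P, Q).2.2.2.1.re - (P, Q).1.2.2.1.re)) :=
      (Continuous.tendsto (f := fun p : V × V => (e0 : ℝ) * p.2.2.2.1.re - p.1.2.2.1.re)
        (by fun_prop) (P, Q)).comp hid
    exact ev_const _ k _ (h0.congr' (hQ1.mono fun p hp => hp.2.2.1.symm))
  obtain ⟨k0, hk0⟩ := tk
  have tl : ∃ z : ℤ, ∀ᶠ p in (U : Filter (V × V)), l p = z := by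
    have h0 : Tendsto (fun p : V × V => (e0 : ℝ) * p.2.2.2.1.im - p.1.2.2.1.im) (U : Filter (V × V))
        (𝓝 ((e0 : ℝ) * (P, Q).2.2.2.1.im - (P, Q).1.2.2.1.im)) :=
      (Continuous.tendsto (f := fun p : V × V => (e0 : ℝ) * p.2.2.2.1.im - p.1.2.2.1.im)
        (by fun_prop) (P, Q)).comp hid
    exact ev_const _ l _ (h0.congr' (hQ1.mono fun p hp => hp.2.2.2.1.symm))
  obtain ⟨l0, hl0⟩ := tl
  have tm : ∃ z : ℤ, ∀ᶠ p in (U : Filter (V × V)), m p = z := by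
    have h0 : Tendsto (fun p : V × V => (e0 : ℝ) * p.2.2.2.2.re - p.1.2.2.2.re) (U : Filter (V × V))
        (𝓝 ((e0 : ℝ) * (P, Q).2.2.2.2.re - (P, Q).1.2.2.2.re)) :=
      (Continuous.tendsto (f := fun p : V × V => (e0 : ℝ) * p.2.2.2.2.re - p.1.2.2.2.re)
        (by fun_prop) (P, Q)).comp hid
    exact ev_const _ m _ (h0.congr' (hQ1.mono fun p hp => hp.2.2.2.2.1.symm))
  obtain ⟨m0, hm0⟩ := tm
  have tn : ∃ z : ℤ, ∀ᶠ p in (U : Filter (V × V)), n p = z := by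
    have h0 : Tendsto (fun p : V × V => p.2.2.1 - p.1.2.1) (U : Filter (V × V))
        (𝓝 ((P, Q).2.2.1 - (P, Q).1.2.1)) :=
      (Continuous.tendsto (f := fun p : V × V => p.2.2.1 - p.1.2.1)
        (by fun_prop) (P, Q)).comp hid
    refine ev_const _ n _ (h0.congr' (hQ1.mono fun p hp => ?_))
    rw [hp.2.1]; ring
  obtain ⟨n0, hn0⟩ := tn
  have ta : ∃ z : ℤ, ∀ᶠ p in (U : Filter (V × V)), a p = z := by
    have h0 : Tendsto (fun p : V × V => p.2.1 - p.1.1 + 2 * k0 * p.1.2.2.1.im)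
        (U : Filter (V × V)) (𝓝 ((P, Q).2.1 - (P, Q).1.1 + 2 * k0 * (P, Q).1.2.2.1.im)) :=
      (Continuous.tendsto (f := fun p : V × V => p.2.1 - p.1.1 + 2 * k0 * p.1.2.2.1.im)
        (by fun_prop) (P, Q)).comp hid
    refine ev_const _ a _ (h0.congr' ?_)
    filter_upwards [hQ1, hk0] with p hp hk
    rw [hp.1, hk]; ring
  obtain ⟨a0, ha0⟩ := ta
  have tr : ∃ z : ℤ, ∀ᶠ p in (U : Filter (V × V)), r p = z := by
    have h0 : Tendsto (fun p : V × V =>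
        (p.1.2.2.2.im - e0 * p.2.2.2.2.im - 2 * k0 * p.1.2.1 - √2 * m0) / 2)
        (U : Filter (V × V)) (𝓝 (((P, Q).1.2.2.2.im - e0 * (P, Q).2.2.2.2.im -
          2 * k0 * (P, Q).1.2.1 - √2 * m0) / 2)) :=
      (Continuous.tendsto (f := fun p : V × V =>
        (p.1.2.2.2.im - e0 * p.2.2.2.2.im - 2 * k0 * p.1.2.1 - √2 * m0) / 2)
        (by fun_prop) (P, Q)).comp hid
    refine ev_const _ r _ (h0.congr' ?_)
    filter_upwards [hQ1, hk0, hm0] with p hp hk hm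
    rw [hp.2.2.2.2.2, hk, hm]
  obtain ⟨r0, hr0⟩ := tr
  refine ⟨e0, k0, l0, a0, n0, m0, r0, he0, ?_⟩
  have hfin : ∀ᶠ p in (U : Filter (V × V)), p.2 = act e0 k0 l0 a0 n0 m0 r0 p.1 := by
    filter_upwards [hev, hee, hk0, hl0, ha0, hn0, hm0, hr0] with p hp h1 h2 h3 h4 h5 h6 h7
    rw [← h1, ← h2, ← h3, ← h4, ← h5, ← h6, ← h7]
    exact hp.2
  have t1 : Tendsto (fun p : V × V => p.2) (U : Filter (V × V)) (𝓝 Q) :=
    (continuous_snd.tendsto (P, Q)).comp hid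
  have t2 : Tendsto (fun p : V × V => act e0 k0 l0 a0 n0 m0 r0 p.1) (U : Filter (V × V))
      (𝓝 (act e0 k0 l0 a0 n0 m0 r0 P)) :=
    (((cont_act e0 k0 l0 a0 n0 m0 r0).comp continuous_fst).tendsto (P, Q)).comp hid
  exact tendsto_nhds_unique (t1.congr' hfin) t2

theorem RelClosed_proof : RelClosed := by
  intro P Q hPQ
  by_contra hcon
  push Not at hcon
  apply hPQ
  apply rel_of_frequently
  rw [frequently_iff]
  intro W hW
  rw [nhds_prod_eq, mem_prod_iff] at hW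
  obtain ⟨O, hO, O', hO', hsub⟩ := hW
  obtain ⟨x, hx, y, hy, hxy⟩ := hcon O hO O' hO'
  exact ⟨(x, y), hsub ⟨hx, hy⟩, hxy⟩

end Pool.Agent.W566.LS
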